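import Pool.Agent.H40.ISH.Stmts

/-! Project ISH, module DET: a set of sites in a cube is determined, up to complements, by its
boundary bonds inside of the cube. -/

set_option linter.unusedVariables false

namespace Pool.ISH

open MeasureTheory Filter Topology
open scoped Classical Pointwise

/-- cubes are connected -/
theorem cube_const (x : Site) (r : ℕ) (E : Site → Prop)
    (hE : ∀ b ∈ BQ x r, (E (lo b) ↔ E (hi b))) : ∀ y ∈ Qb x r, (E y ↔ E x) := by
  have key : ∀ (n : ℕ) (y : Site), (∑ i, (y i - x i).natAbs) = n → y ∈ Qb x r → (E y ↔ E x) := by
    intro n
    induction n using Nat.strong_induction_on with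
    | _ n ih =>
      intro y hn hy
      by_cases hyx : y = x
      · rw [hyx]
      have h1 : ∃ i, y i ≠ x i := by
        by_contra h
        push Not at h
        exact hyx (funext h)
      obtain ⟨i, hi'⟩ := h1
      have hyi := mem_Qb.1 hy
      rcases lt_or_gt_of_ne hi' with h2 | h2
      · -- go up
        have hmem : y + ev i ∈ Qb x r := by
          rw [mem_Qb]
          intro j
          have h3 := hyi j
          by_cases hj : j = i
          · subst hj
            simp only [Pi.add_apply, ev_same]
            rw [abs_le] at *
            constructor
            · linarith [h3.1]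
            · have : y j - x j + 1 ≤ 0 := by omega
              have h4 : (0:ℤ) ≤ r := by positivity
              linarith
          · simp only [Pi.add_apply, ev_ne hj, add_zero]
            exact h3
        have hb : ((y, i) : Bond) ∈ BQ x r := by
          rw [mem_BQ]
          exact ⟨hy, hmem⟩
        have h4 := hE _ hb
        have h5 : (∑ j, ((y + ev i) j - x j).natAbs) < n := by
          rw [← hn]
          apply Finset.sum_lt_sum
          · intro j _
            by_cases hj : j = i
            · subst hj
              simp only [Pi.add_apply, ev_same]
              omega
            · simp only [Pi.add_apply, ev_ne hj, add_zero]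
              exact le_refl _
          · refine ⟨i, Finset.mem_univ _, ?_⟩
            simp only [Pi.add_apply, ev_same]
            omega
        have h6 := ih _ h5 (y + ev i) rfl hmem
        exact h4.trans h6
      · -- go down
        have hmem : y - ev i ∈ Qb x r := by
          rw [mem_Qb]
          intro j
          have h3 := hyi j
          by_cases hj : j = i
          · subst hj
            simp only [Pi.sub_apply, ev_same]
            rw [abs_le] at *
            constructor
            · have : 0 ≤ y j - 1 - x j := by omega
              have h4 : (0:ℤ) ≤ r := by positivity
              linarith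
            · linarith [h3.2]
          · simp only [Pi.sub_apply, ev_ne hj, sub_zero]
            exact h3
        have hhi : hi ((y - ev i, i) : Bond) = y := by
          simp [hi]
        have hb : ((y - ev i, i) : Bond) ∈ BQ x r := by
          rw [mem_BQ, hhi]
          exact ⟨hmem, hy⟩
        have h4 := hE _ hb
        rw [hhi] at h4
        have h5 : (∑ j, ((y - ev i) j - x j).natAbs) < n := by
          rw [← hn]
          apply Finset.sum_lt_sum
          · intro j _
            by_cases hj : j = i
            · subst hj
              simp only [Pi.sub_apply, ev_same]
              omega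
            · simp only [Pi.sub_apply, ev_ne hj, sub_zero]
              exact le_refl _
          · refine ⟨i, Finset.mem_univ _, ?_⟩
            simp only [Pi.sub_apply, ev_same]
            omega
        have h6 := ih _ h5 (y - ev i) rfl hmem
        exact h4.symm.trans h6
  intro y hy
  exact key _ y rfl hy

theorem det : DETStmt := by
  intro x r D D' hD hD' h
  have h1 := cube_const x r (fun y => (y ∈ D ↔ y ∈ D')) (by
    intro b hb
    have h2 := h b hb
    simp only [mem_bd, Finset.mem_coe] at h2
    show (lo b ∈ D ↔ lo b ∈ D') ↔ (hi b ∈ D ↔ hi b ∈ D')
    tauto)
  by_cases h0 : (x ∈ D ↔ x ∈ D')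
  · left
    ext y
    constructor
    · intro hy
      exact ((h1 y (hD' hy)).2 h0).2 hy
    · intro hy
      exact ((h1 y (hD hy)).2 h0).1 hy
  · right
    ext y
    rw [Finset.mem_sdiff]
    constructor
    · intro hy
      refine ⟨hD' hy, fun hy2 => h0 ((h1 y (hD' hy)).1 ⟨fun _ => hy, fun _ => hy2⟩)⟩
    · rintro ⟨hy, hy2⟩
      by_contra hy3
      exact h0 ((h1 y hy).1 ⟨fun h => absurd h hy2, fun h => absurd h hy3⟩)

end Pool.ISH
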