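import Pool.Agent.H40.ISH.Stmts

/-! Project ISH, module RDB: there are few radii for which the outermost layer contains many
boundary bonds. -/

set_option linter.unusedVariables false

namespace Pool.ISH

open MeasureTheory Filter Topology
open scoped Classical Pointwise

theorem BQ_mono (x : Site) {r s : ℕ} (h : r ≤ s) : BQ x r ⊆ BQ x s := by
  intro b hb
  rw [mem_BQ] at *
  exact ⟨Qb_mono x h hb.1, Qb_mono x h hb.2⟩

theorem sf_mono (D : Set Site) (x : Site) {r s : ℕ} (h : r ≤ s) : sf D x r ≤ sf D x s := by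
  unfold sf
  apply Finset.card_le_card
  exact Finset.filter_subset_filter _ (BQ_mono x h)

theorem sf_le (D : Set Site) (x : Site) (r : ℕ) : sf D x r ≤ 3 * (2 * r + 1) ^ 3 :=
  (Finset.card_filter_le _ _).trans (card_BQ_le x r)

theorem Lg_mono {r s : ℕ} (h : r ≤ s) : Lg r ≤ Lg s := by
  unfold Lg
  exact Nat.add_le_add_right (Nat.log_mono_right h) 1

theorem rdb_aux (L : ℕ) (hL : 15 ≤ L) : 16 * (1 + (L - 1) * (3 * L + 7)) ≤ 2 ^ (L - 1) := by
  obtain ⟨k, rfl⟩ : ∃ k, L = k + 15 := ⟨L - 15, by omega⟩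
  have h1 : k + 15 - 1 = k + 14 := by omega
  rw [h1]
  clear hL h1
  induction k with
  | zero => norm_num
  | succ k ih =>
    have h2 : 2 ^ (k + 1 + 14) = 2 * 2 ^ (k + 14) := by ring
    rw [h2]
    nlinarith

theorem bern (M : ℕ) (hM : 1 ≤ M) : 2 * M ^ M ≤ (M + 1) ^ M := by
  have h1 : (1 + (1 : ℚ) / M) ^ M ≥ 1 + M * ((1 : ℚ) / M) :=
    one_add_mul_le_pow (by have : (0:ℚ) ≤ 1 / M := by positivity
                           linarith) M
  have hM' : (0 : ℚ) < M := by exact_mod_cast hM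
  have h2 : (1 : ℚ) + M * (1 / M) = 2 := by field_simp; norm_num
  rw [h2] at h1
  have h3 : ((M : ℚ) + 1) ^ M = (1 + 1 / M) ^ M * M ^ M := by
    rw [← mul_pow]
    congr 1
    field_simp
  have h4 : (2 : ℚ) * (M : ℚ) ^ M ≤ ((M : ℚ) + 1) ^ M := by
    rw [h3]
    exact mul_le_mul_of_nonneg_right h1 (by positivity)
  exact_mod_cast h4

theorem rdb : RDBStmt := by
  refine ⟨2 ^ 14, ?_⟩
  intro ρ hρ D x h0
  set L := Lg ρ with hLdef
  have hρ1 : 1 ≤ ρ := le_trans (Nat.one_le_two_pow) hρ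
  have hL : 15 ≤ L := by
    rw [hLdef]
    unfold Lg
    have : 14 ≤ Nat.log 2 ρ := by
      exact Nat.le_log_of_pow_le (by norm_num) hρ
    omega
  have hlt : ρ < 2 ^ L := by
    rw [hLdef]
    unfold Lg
    exact Nat.lt_pow_succ_log_self (by norm_num) ρ
  have hge : 2 ^ (L - 1) ≤ ρ := by
    rw [hLdef]
    unfold Lg
    rw [Nat.add_sub_cancel]
    exact Nat.pow_log_le_self 2 (by omega)
  obtain ⟨M, hM⟩ : ∃ M, L = M + 1 := ⟨L - 1, by omega⟩
  have hM1 : 14 ≤ M := by omega
  set r0 := ρ / 2 with hr0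
  -- the count of bad radii above r0
  let bad : ℕ → Prop := fun r => sf D x r < (sf D x r - sf D x (r - 1)) * Lg r
  let cb : ℕ → ℕ := fun r => ((Finset.Ioc r0 r).filter (fun s => bad s)).card
  have hstep : ∀ r, r0 ≤ r → r ≤ ρ → (M + 1) ^ (cb r) ≤ M ^ (cb r) * sf D x r := by
    intro r hr
    induction r, hr using Nat.le_induction with
    | base =>
      intro _
      show (M + 1) ^ ((Finset.Ioc r0 r0).filter (fun s => bad s)).card ≤
        M ^ ((Finset.Ioc r0 r0).filter (fun s => bad s)).card * sf D x r0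
      simpa using h0
    | succ r hr ih =>
      intro hrρ
      have ih' := ih (by omega)
      have hins : (Finset.Ioc r0 (r + 1)) = insert (r + 1) (Finset.Ioc r0 r) := by
        ext s
        simp only [Finset.mem_Ioc, Finset.mem_insert]
        omega
      have hcb : cb (r + 1) = cb r + (if bad (r + 1) then 1 else 0) := by
        show ((Finset.Ioc r0 (r + 1)).filter (fun s => bad s)).card = _
        rw [hins, Finset.filter_insert]
        split_ifs with hbad
        · rw [Finset.card_insert_of_notMem]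
          simp
        · rfl
      by_cases hbad : bad (r + 1)
      · rw [hcb, if_pos hbad]
        have h1 : sf D x (r + 1) < (sf D x (r + 1) - sf D x r) * Lg (r + 1) := hbad
        have h2 : Lg (r + 1) ≤ M + 1 := by
          rw [← hM, hLdef]
          exact Lg_mono hrρ
        have h3 : sf D x r ≤ sf D x (r + 1) := sf_mono D x (Nat.le_succ r)
        have h4 : sf D x (r + 1) < (sf D x (r + 1) - sf D x r) * (M + 1) :=
          lt_of_lt_of_le h1 (Nat.mul_le_mul_left _ h2)
        have h5 : (M + 1) * sf D x r ≤ M * sf D x (r + 1) := by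
          obtain ⟨d, hd⟩ := Nat.exists_eq_add_of_le h3
          rw [hd] at h4 ⊢
          rw [Nat.add_sub_cancel_left] at h4
          nlinarith
        calc (M + 1) ^ (cb r + 1) = (M + 1) * (M + 1) ^ (cb r) := by ring
          _ ≤ (M + 1) * (M ^ (cb r) * sf D x r) := Nat.mul_le_mul_left _ ih'
          _ = M ^ (cb r) * ((M + 1) * sf D x r) := by ring
          _ ≤ M ^ (cb r) * (M * sf D x (r + 1)) := Nat.mul_le_mul_left _ h5
          _ = M ^ (cb r + 1) * sf D x (r + 1) := by ring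
      · rw [hcb, if_neg hbad, add_zero]
        exact ih'.trans (Nat.mul_le_mul_left _ (sf_mono D x (Nat.le_succ r)))
  have hfin := hstep ρ (Nat.div_le_self ρ 2) le_rfl
  have hcbound : cb ρ < M * (3 * L + 7) := by
    by_contra hcon
    push Not at hcon
    obtain ⟨d, hd⟩ := Nat.exists_eq_add_of_le hcon
    have h1 : 2 ^ (3 * L + 7) * M ^ (cb ρ) ≤ (M + 1) ^ (cb ρ) := by
      rw [hd]
      generalize 3 * L + 7 = k
      rw [pow_add M, pow_add (M + 1), pow_mul, pow_mul]
      calc 2 ^ k * ((M ^ M) ^ k * M ^ d)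
          = (2 * M ^ M) ^ k * M ^ d := by rw [mul_pow]; ring
        _ ≤ ((M + 1) ^ M) ^ k * (M + 1) ^ d := by
            apply Nat.mul_le_mul
            · exact Nat.pow_le_pow_left (bern M (by omega)) _
            · exact Nat.pow_le_pow_left (Nat.le_succ M) _
    have h2 : 2 ^ (3 * L + 7) * M ^ (cb ρ) ≤ M ^ (cb ρ) * sf D x ρ := h1.trans hfin
    have hMpos : 0 < M ^ (cb ρ) := Nat.pow_pos (by omega)
    have h3 : 2 ^ (3 * L + 7) ≤ sf D x ρ := by
      rw [mul_comm] at h2
      exact Nat.le_of_mul_le_mul_left h2 hMpos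
    have h4 := sf_le D x ρ
    have h5 : 3 * (2 * ρ + 1) ^ 3 ≤ 3 * (3 * ρ) ^ 3 :=
      Nat.mul_le_mul_left _ (Nat.pow_le_pow_left (by omega) _)
    have h6 : 3 * (3 * ρ) ^ 3 < 2 ^ (3 * L + 7) := by
      have h7 : ρ ^ 3 < (2 ^ L) ^ 3 := Nat.pow_lt_pow_left hlt (by norm_num)
      have h8 : 2 ^ (3 * L + 7) = 128 * (2 ^ L) ^ 3 := by
        rw [pow_add, mul_comm 3 L, pow_mul]
        norm_num
        ring
      rw [h8]
      have h9 : 3 * (3 * ρ) ^ 3 = 81 * ρ ^ 3 := by ring
      rw [h9]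
      omega
    omega
  have hcount : ((Finset.Icc 1 ρ).filter (fun r => ρ ≤ 2 * r ∧
      sf D x r < (sf D x r - sf D x (r - 1)) * Lg r)).card ≤ 1 + cb ρ := by
    have hsub : ((Finset.Icc 1 ρ).filter (fun r => ρ ≤ 2 * r ∧
        sf D x r < (sf D x r - sf D x (r - 1)) * Lg r)) ⊆
        insert r0 ((Finset.Ioc r0 ρ).filter (fun s => bad s)) := by
      intro r hr
      simp only [Finset.mem_filter, Finset.mem_Icc, Finset.mem_insert, Finset.mem_Ioc] at *
      by_cases h1 : r = r0
      · exact Or.inl h1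
      · right
        exact ⟨⟨by omega, hr.1.2⟩, hr.2.2⟩
    refine (Finset.card_le_card hsub).trans ((Finset.card_insert_le _ _).trans ?_)
    show cb ρ + 1 ≤ 1 + cb ρ
    omega
  have haux := rdb_aux L hL
  have hML : L - 1 = M := by omega
  calc 16 * _ ≤ 16 * (1 + cb ρ) := Nat.mul_le_mul_left _ hcount
    _ ≤ 16 * (1 + M * (3 * L + 7)) := by omega
    _ = 16 * (1 + (L - 1) * (3 * L + 7)) := by rw [hML]
    _ ≤ 2 ^ (L - 1) := haux
    _ ≤ ρ := hge

end Pool.ISH
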