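import Pool.Agent.H40.ISH.Stmts

/-! Project ISH, module ROT: choice of roots. -/

set_option linter.unusedVariables false

namespace Pool.ISH

open MeasureTheory Filter Topology
open scoped Classical Pointwise

theorem rot : ROTStmt := by
  intro G R l hl h
  set cmp : Bond → Finset Bond := fun b => G.filter (fun c => Rch (G : Set Bond) b c) with hcmp
  have hself : ∀ b ∈ G, b ∈ cmp b := by
    intro b hb
    rw [hcmp, Finset.mem_filter]
    exact ⟨hb, Relation.ReflTransGen.refl⟩
  have heq : ∀ b ∈ G, ∀ c, Rch (G : Set Bond) b c → cmp b = cmp c := by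
    intro b hb c hbc
    have hcb : Rch (G : Set Bond) c b := hbc.symm hb
    rw [hcmp]
    ext d
    simp only [Finset.mem_filter]
    constructor
    · rintro ⟨h1, h2⟩
      exact ⟨h1, hcb.trans h2⟩
    · rintro ⟨h1, h2⟩
      exact ⟨h1, hbc.trans h2⟩
  set B : Finset Bond := G.filter (fun b => ¬ ∃ c ∈ G, c ∈ R ∧ Rch (G : Set Bond) c b) with hB
  set 𝒞 : Finset (Finset Bond) := B.image cmp with h𝒞
  have hne : ∀ S ∈ 𝒞, ∃ b ∈ S, b ∈ B ∧ cmp b = S := by
    intro S hS
    rw [h𝒞, Finset.mem_image] at hS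
    obtain ⟨b, hb, rfl⟩ := hS
    exact ⟨b, hself b (Finset.mem_filter.1 hb).1, hb, rfl⟩
  choose! f hf1 hf2 hf3 using hne
  have hcard : 𝒞.card * l ≤ G.card := by
    have h1 : 𝒞.card * l ≤ ∑ S ∈ 𝒞, S.card := by
      rw [← smul_eq_mul, ← Finset.sum_const]
      apply Finset.sum_le_sum
      intro S hS
      have h2 := hf2 S hS
      rw [hB, Finset.mem_filter] at h2
      rcases h (f S) h2.1 with h3 | h3
      · exact absurd h3 h2.2
      · have h4 := hf3 S hS
        rw [← h4]
        exact h3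
    refine h1.trans ?_
    rw [← Finset.card_biUnion]
    · apply Finset.card_le_card
      intro b hb
      rw [Finset.mem_biUnion] at hb
      obtain ⟨S, hS, hbS⟩ := hb
      rw [← hf3 S hS, hcmp, Finset.mem_filter] at hbS
      exact hbS.1
    · intro S hS S' hS' hSS
      rw [Function.onFun, Finset.disjoint_left]
      intro b hb hb'
      apply hSS
      have h2 := hf3 S hS
      have h2' := hf3 S' hS'
      have h5 := (Finset.mem_filter.1 (hf2 S hS)).1
      have h5' := (Finset.mem_filter.1 (hf2 S' hS')).1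
      rw [← h2] at hb
      rw [← h2'] at hb'
      rw [hcmp, Finset.mem_filter] at hb hb'
      rw [← h2, ← h2', heq _ h5 _ hb.2, heq _ h5' _ hb'.2]
  refine ⟨(G.filter (fun b => b ∈ R)) ∪ 𝒞.image f, ?_, ?_, ?_⟩
  · intro b hb
    rw [Finset.mem_union, Finset.mem_filter, Finset.mem_image] at hb
    rcases hb with hb | ⟨S, hS, rfl⟩
    · exact hb.1
    · exact (Finset.mem_filter.1 (hf2 S hS)).1
  · refine le_trans (Nat.mul_le_mul_right l ?_) hcard
    refine le_trans (Finset.card_le_card ?_) (Finset.card_image_le (s := 𝒞) (f := f))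
    intro b hb
    rw [Finset.mem_sdiff, Finset.mem_union, Finset.mem_filter] at hb
    tauto
  · intro b hb
    by_cases h1 : ∃ c ∈ G, c ∈ R ∧ Rch (G : Set Bond) c b
    · obtain ⟨c, hc, hcR, hcb⟩ := h1
      exact ⟨c, Finset.mem_union_left _ (Finset.mem_filter.2 ⟨hc, hcR⟩), hcb⟩
    · have h2 : b ∈ B := Finset.mem_filter.2 ⟨hb, h1⟩
      have h3 : cmp b ∈ 𝒞 := Finset.mem_image_of_mem _ h2
      refine ⟨f (cmp b), Finset.mem_union_right _ (Finset.mem_image_of_mem _ h3), ?_⟩
      have h4 := hf3 _ h3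
      have h5 := hself b hb
      rw [← h4, hcmp, Finset.mem_filter] at h5
      exact h5.2

end Pool.ISH
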